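import Pool.Agent.Q284.TS.Quad

/-!
# Hyperelliptic curves `a y² = q₀(x)² - b q₁(x)²`
-/

set_option autoImplicit false

namespace Pool.Agent.Q284.TS

open Pool.Agent.W620.SC Pool.Agent.W623.SecC Pool.Agent.W623.SecE Pool.Agent.Q284.SC Polynomial

section poly

variable {A K : Type*} [Field A] [Field K] {j : A →+* K} {W : ValuationSubring K}
  (hW : ∀ c, j c ∈ W)

include hW

lemma ev_mem {x : K} (hx : x ∈ W) (p : A[X]) : eval₂ j x p ∈ W := by
  rw [eval₂_eq_sum_range]
  exact sum_mem fun i _ => mul_mem (hW _) (pow_mem hx _)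

lemma ev_cop {x : K} (hx : x ∈ W) {q q' : A[X]} (h : IsCoprime q q')
    (hn : eval₂ j x q ∈ W.nonunits) : IsU W (eval₂ j x q') := by
  obtain ⟨u, v, huv⟩ := h
  have h1 := congrArg (eval₂ j x) huv
  rw [eval₂_add, eval₂_mul, eval₂_mul, eval₂_one] at h1
  have h2 := isU_add_nonunit (isU_one (V := W))
    (nonunit_mul (neg_mem (ev_mem hW hx u)) hn)
  have h3 : 1 + -eval₂ j x u * eval₂ j x q = eval₂ j x v * eval₂ j x q' := by
    linear_combination -h1
  rw [h3] at h2
  refine ⟨right_ne_zero_of_mul h2.1, ev_mem hW hx q', ?_⟩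
  have h4 : (eval₂ j x q')⁻¹ = eval₂ j x v * (eval₂ j x v * eval₂ j x q')⁻¹ := by
    have := left_ne_zero_of_mul h2.1
    have := right_ne_zero_of_mul h2.1
    field_simp
  rw [h4]
  exact mul_mem (ev_mem hW hx v) h2.2.2

lemma ev_inf {x : K} (hx : x ∉ W) {q : A[X]} (hq : q ≠ 0) :
    IsU W (eval₂ j x q / x ^ q.natDegree) := by
  have hx0 : x ≠ 0 := by
    rintro rfl
    exact hx (zero_mem _)
  have hxn : x⁻¹ ∈ W.nonunits := (W.inv_mem_nonunits_iff).2 (Or.inr hx)
  have hxi : x⁻¹ ∈ W := (W.mem_or_inv_mem x).resolve_left hx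
  let _ : Invertible x := invertibleOfNonzero hx0
  have h1 := eval₂_reverse_mul_pow j x q
  rw [invOf_eq_inv] at h1
  have h2 : eval₂ j x q / x ^ q.natDegree = eval₂ j x⁻¹ q.reverse := by
    rw [← h1, mul_div_assoc, div_self (pow_ne_zero _ hx0), mul_one]
  have h3 : eval₂ j x⁻¹ q.reverse =
      j q.leadingCoeff + eval₂ j x⁻¹ q.reverse.divX * x⁻¹ := by
    conv_lhs => rw [← divX_mul_X_add q.reverse]
    rw [eval₂_add, eval₂_mul, eval₂_X, eval₂_C, coeff_zero_reverse]
    ring
  rw [h2, h3]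
  have hl : q.leadingCoeff ≠ 0 := leadingCoeff_ne_zero.2 hq
  exact isU_add_nonunit ⟨(_root_.map_ne_zero j).2 hl, hW _, by rw [← map_inv₀]; exact hW _⟩
    (nonunit_mul (ev_mem hW hxi _) hxn)

end poly

variable {k F Ω : Type} [Field k] [Field F] [Field Ω] [Algebra k F] [Algebra F Ω] [Algebra k Ω]
  {U : Set (ValuationSubring F)} [IsScalarTower k F Ω] [CharZero k] [IsAlgClosed Ω]
  (hU : ∀ O ∈ U, ∀ c : k, algebraMap k F c ∈ O) [Algebra.IsAlgebraic F Ω]

include hU in
/-- **Hyperelliptic curves.** -/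
theorem hyper (G : GSection k F Ω U) {a b : k} (ha : a ≠ 0) (hb : b ≠ 0) {q0 q1 : k[X]}
    (hcop : IsCoprime q0 q1) {x y : F} (hy : y ≠ 0)
    (h : algebraMap k F a * y ^ 2 = aeval x q0 ^ 2 - algebraMap k F b * aeval x q1 ^ 2)
    (hdeg : Even (max q0.natDegree q1.natDegree) ∨ ∀ O ∈ U, x ∈ O) :
    ∃ p r : k, a = p ^ 2 - b * r ^ 2 := by
  by_contra hno
  have hac : IsAlgClosure k (algebraicClosure k Ω) := inferInstance
  have hA : IsAlgClosed (algebraicClosure k Ω) := hac.1
  have hnb : ¬ ∃ c : k, c ^ 2 = b := by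
    rintro ⟨c, hc⟩
    have hc0 : c ≠ 0 := by
      rintro rfl
      rw [zero_pow two_ne_zero] at hc
      exact hb hc.symm
    refine hno ⟨(a + 1) / 2, (a - 1) / (2 * c), ?_⟩
    rw [← hc]
    field_simp
    ring
  obtain ⟨rb, hrb⟩ := IsAlgClosed.exists_pow_nat_eq (algebraMap k (algebraicClosure k Ω) b)
    (n := 2) (by norm_num)
  have hrb0 : rb ≠ 0 := by
    rintro rfl
    rw [zero_pow two_ne_zero] at hrb
    exact hb ((_root_.map_eq_zero _).1 hrb.symm)
  have hrk : ∀ c : k, algebraMap k (algebraicClosure k Ω) c ≠ rb := by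
    intro c hc
    apply hnb
    refine ⟨c, (algebraMap k (algebraicClosure k Ω)).injective ?_⟩
    rw [map_pow, hc, hrb]
  have h2A : (2 : algebraicClosure k Ω) ≠ 0 := by
    have h6 : (2 : k) ≠ 0 := two_ne_zero
    have : algebraMap k (algebraicClosure k Ω) 2 ≠ 0 := (_root_.map_ne_zero _).2 h6
    rwa [map_ofNat] at this
  obtain ⟨q, hq⟩ : ∃ q, q = q0.map (algebraMap k (algebraicClosure k Ω)) +
      C rb * q1.map (algebraMap k (algebraicClosure k Ω)) := ⟨_, rfl⟩
  obtain ⟨q', hq'⟩ : ∃ q', q' = q0.map (algebraMap k (algebraicClosure k Ω)) -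
      C rb * q1.map (algebraMap k (algebraicClosure k Ω)) := ⟨_, rfl⟩
  have hcq : IsCoprime q q' := by
    obtain ⟨u, v, huv⟩ := hcop
    have h1 := congrArg (map (algebraMap k (algebraicClosure k Ω))) huv
    rw [Polynomial.map_add, Polynomial.map_mul, Polynomial.map_mul, Polynomial.map_one] at h1
    have h2 : C (1 / 2 : algebraicClosure k Ω) * C 2 = 1 := by
      rw [← C_mul, one_div, inv_mul_cancel₀ h2A, C_1]
    have h3 : C (1 / (2 * rb) : algebraicClosure k Ω) * (C 2 * C rb) = 1 := by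
      rw [← C_mul, ← C_mul, one_div, inv_mul_cancel₀ (mul_ne_zero h2A hrb0), C_1]
    refine ⟨C (1 / 2) * u.map (algebraMap k _) + C (1 / (2 * rb)) * v.map (algebraMap k _),
      C (1 / 2) * u.map (algebraMap k _) - C (1 / (2 * rb)) * v.map (algebraMap k _), ?_⟩
    have hC2 : (C (2 : algebraicClosure k Ω)) = 2 := by
      rw [← one_add_one_eq_two, C_add, C_1]
      norm_num
    rw [hC2] at h2 h3
    rw [hq, hq', ← h1]
    linear_combination (u.map (algebraMap k (algebraicClosure k Ω))) *
      (q0.map (algebraMap k _)) * h2 +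
      (v.map (algebraMap k (algebraicClosure k Ω))) * (q1.map (algebraMap k _)) * h3
  have hcN : q.coeff (max q0.natDegree q1.natDegree) ≠ 0 := by
    rw [hq, coeff_add, coeff_C_mul, coeff_map, coeff_map]
    intro h0
    by_cases h1 : q1.coeff (max q0.natDegree q1.natDegree) = 0
    · rw [h1, map_zero, mul_zero, add_zero, map_eq_zero] at h0
      have h2 : q0 = 0 ∧ q1 = 0 := by
        rcases le_total q0.natDegree q1.natDegree with h3 | h3
        · rw [max_eq_right h3] at h0 h1
          have h4 : q1 = 0 := leadingCoeff_eq_zero.1 h1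
          rw [h4, natDegree_zero] at h3 h0
          have h5 : q0.natDegree = 0 := Nat.le_zero.1 h3
          refine ⟨?_, h4⟩
          rw [eq_C_of_natDegree_eq_zero h5, h0, C_0]
        · rw [max_eq_left h3] at h0 h1
          have h4 : q0 = 0 := leadingCoeff_eq_zero.1 h0
          rw [h4, natDegree_zero] at h3 h1
          have h5 : q1.natDegree = 0 := Nat.le_zero.1 h3
          refine ⟨h4, ?_⟩
          rw [eq_C_of_natDegree_eq_zero h5, h1, C_0]
      obtain ⟨u, v, huv⟩ := hcop
      rw [h2.1, h2.2, mul_zero, mul_zero, add_zero] at huv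
      exact zero_ne_one huv
    · have h3 : algebraMap k (algebraicClosure k Ω)
          (q1.coeff (max q0.natDegree q1.natDegree)) ≠ 0 := (_root_.map_ne_zero _).2 h1
      apply hrk (-q0.coeff (max q0.natDegree q1.natDegree) /
        q1.coeff (max q0.natDegree q1.natDegree))
      rw [map_div₀, map_neg, div_eq_iff h3]
      linear_combination -h0
  have hqN : q.natDegree = max q0.natDegree q1.natDegree := by
    refine natDegree_eq_of_le_of_coeff_ne_zero ?_ hcN
    rw [hq]
    refine (natDegree_add_le _ _).trans (max_le_max ?_ ?_)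
    · exact natDegree_map_le
    · exact (natDegree_C_mul_le _ _).trans natDegree_map_le
  have hq0 : q ≠ 0 := fun h0 => hcN (by rw [h0, coeff_zero])
  -- the values in `Ω`
  obtain ⟨j, hj⟩ : ∃ j : algebraicClosure k Ω →+* Ω, j = algebraMap _ Ω := ⟨_, rfl⟩
  have hjk : j.comp (algebraMap k (algebraicClosure k Ω)) = algebraMap k Ω := by
    rw [hj]
    exact (IsScalarTower.algebraMap_eq k _ Ω).symm
  have ev0 : ∀ p : k[X], eval₂ j (algebraMap F Ω x) (p.map (algebraMap k _)) =
      algebraMap F Ω (aeval x p) := by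
    intro p
    rw [eval₂_map, hjk, ← aeval_def, aeval_algebraMap_apply]
  have evq : eval₂ j (algebraMap F Ω x) q =
      algebraMap F Ω (aeval x q0) + j rb * algebraMap F Ω (aeval x q1) := by
    rw [hq, eval₂_add, eval₂_mul, eval₂_C, ev0, ev0]
  have evq' : eval₂ j (algebraMap F Ω x) q' =
      algebraMap F Ω (aeval x q0) - j rb * algebraMap F Ω (aeval x q1) := by
    rw [hq', eval₂_sub, eval₂_mul, eval₂_C, ev0, ev0]
  have hjb : j rb ^ 2 = algebraMap F Ω (algebraMap k F b) := by
    rw [← map_pow, hrb, ← IsScalarTower.algebraMap_apply, ← hjk]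
    rfl
  have hprod : algebraMap k Ω a * (algebraMap F Ω y) ^ 2 =
      eval₂ j (algebraMap F Ω x) q * eval₂ j (algebraMap F Ω x) q' := by
    have h1 := congrArg (algebraMap F Ω) h
    simp only [map_mul, map_pow, map_sub] at h1
    rw [evq, evq', IsScalarTower.algebraMap_apply k F Ω, h1, ← hjb]
    ring
  obtain ⟨z, hz⟩ : ∃ z : unramified F Ω U, z ^ 2 = algebraMap F _ (aeval x q0) +
      constHom hU rb * algebraMap F _ (aeval x q1) := by
    apply exists_root_unramified (k := k) U hU (n := 2) (by norm_num)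
    intro hz0 W hW
    have hcoe : ((algebraMap F (unramified F Ω U) (aeval x q0) +
        constHom hU rb * algebraMap F _ (aeval x q1) : unramified F Ω U) : Ω) =
        eval₂ j (algebraMap F Ω x) q := by
      rw [evq, hj]
      rfl
    rw [hcoe] at hz0 ⊢
    have hWk : ∀ c : k, algebraMap k Ω c ∈ W := by
      intro c
      rw [IsScalarTower.algebraMap_apply k F Ω]
      exact hU _ hW c
    have hWj : ∀ c, j c ∈ W := by
      intro c
      rw [hj]
      exact const_mem hWk c.2
    obtain ⟨t, ht0, ht⟩ : ∃ t : F, t ≠ 0 ∧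
        IsU W (eval₂ j (algebraMap F Ω x) q / (algebraMap F Ω t) ^ 2) := by
      by_cases hx : algebraMap F Ω x ∈ W
      · by_cases hn : eval₂ j (algebraMap F Ω x) q ∈ W.nonunits
        · have hu := ev_cop hWj hx hcq hn
          refine ⟨y, hy, ?_⟩
          have hy' : algebraMap F Ω y ≠ 0 := (_root_.map_ne_zero _).2 hy
          have h1 : eval₂ j (algebraMap F Ω x) q / (algebraMap F Ω y) ^ 2 =
              algebraMap k Ω a / eval₂ j (algebraMap F Ω x) q' := by
            rw [div_eq_div_iff (pow_ne_zero 2 hy') hu.1]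
            exact hprod.symm
          rw [h1]
          refine IsU.div ⟨(_root_.map_ne_zero _).2 ha, hWk a, ?_⟩ hu
          rw [← map_inv₀]
          exact hWk _
        · refine ⟨1, one_ne_zero, ?_⟩
          rw [map_one, one_pow, div_one]
          exact isU_of_not_nonunit (ev_mem hWj hx q) hn
      · have hO : ¬ ∀ O ∈ U, x ∈ O := fun h1 => hx (h1 _ hW)
        obtain ⟨e, he⟩ := hdeg.resolve_right hO
        have hx0 : x ≠ 0 := by
          rintro rfl
          rw [map_zero] at hx
          exact hx (zero_mem _)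
        refine ⟨x ^ e, pow_ne_zero e hx0, ?_⟩
        have h1 := ev_inf hWj hx hq0
        rwa [hqN, he, ← two_mul, mul_comm 2 e, pow_mul, ← map_pow] at h1
    refine ⟨algebraMap F Ω t, (algebraMap F (unramified F Ω U) t).2,
      (_root_.map_ne_zero _).2 ht0, ht.2.1, ?_⟩
    have h1 := ht.2.2
    rwa [inv_div] at h1
  exact hno (quad hU G ha hb hy h.symm hrb hz)

end Pool.Agent.Q284.TS
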