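import Pool.Agent.Helper273.Brg.P_springer

/-!
# Norms from quadratic extensions and extensions of odd degree
-/

set_option autoImplicit false

namespace Pool.Agent.Q284.TS

open Polynomial

theorem odd_descent {k L : Type} [Field k] [Field L] [Algebra k L] [CharZero k]
    [FiniteDimensional k L] (hodd : Odd (Module.finrank k L)) {a b : k} (hb : b ≠ 0)
    (h : ∃ x y : L, algebraMap k L a = x ^ 2 - algebraMap k L b * y ^ 2) :
    ∃ x y : k, a = x ^ 2 - b * y ^ 2 := by
  obtain ⟨x, y, hxy⟩ := h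
  obtain ⟨pb, -⟩ : ∃ pb : PowerBasis k L, True := ⟨Field.powerBasisOfFiniteOfSeparable k L, trivial⟩
  obtain ⟨p, hp⟩ := pb.exists_eq_aeval' x
  obtain ⟨q, hq⟩ := pb.exists_eq_aeval' y
  have hdeg : (minpoly k pb.gen).natDegree = Module.finrank k L := by
    rw [pb.natDegree_minpoly, pb.finrank]
  obtain ⟨w, hw0, hw⟩ := Pool.Agent.Helper273.Sup.springer
    (!![1, 0, 0; 0, -b, 0; 0, 0, -a] : Matrix (Fin 3) (Fin 3) k) pb.gen pb.isIntegral_gen
    (hdeg ▸ hodd) (![p, q, 1]) ⟨2, by simp⟩ (by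
      simp [Fin.sum_univ_three, ← hp, ← hq]
      linear_combination -hxy)
  have hw1 : w 0 ^ 2 - b * w 1 ^ 2 = a * w 2 ^ 2 := by
    simp [Fin.sum_univ_three] at hw
    linear_combination hw
  by_cases h2 : w 2 = 0
  · have h1 : w 1 ≠ 0 := by
      intro h1
      rw [h1, h2] at hw1
      have h0 : w 0 = 0 := by
        apply pow_eq_zero_iff (two_ne_zero) |>.1
        linear_combination hw1
      apply hw0
      funext i
      fin_cases i
      · exact h0
      · exact h1
      · exact h2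
    obtain ⟨c, hc⟩ : ∃ c, c = w 0 / w 1 := ⟨_, rfl⟩
    have hcb : c ^ 2 = b := by
      rw [h2] at hw1
      rw [hc, div_pow, div_eq_iff (pow_ne_zero 2 h1)]
      linear_combination hw1
    have hc0 : c ≠ 0 := by
      rintro h0
      rw [h0, zero_pow two_ne_zero] at hcb
      exact hb hcb.symm
    refine ⟨(a + 1) / 2, (a - 1) / (2 * c), ?_⟩
    rw [← hcb]
    field_simp
    ring
  · refine ⟨w 0 / w 2, w 1 / w 2, ?_⟩
    field_simp
    linear_combination -hw1

end Pool.Agent.Q284.TS
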