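import Pool.Agent.Q284.SC.Fix

/-!
# Sections and norm functions for quadratic extensions
-/

set_option autoImplicit false

namespace Pool.Agent.Q284.TS

open Pool.Agent.W620.SC Pool.Agent.W623.SecC Pool.Agent.W623.SecE Pool.Agent.Q284.SC

variable {k F Ω : Type} [Field k] [Field F] [Field Ω] [Algebra k F] [Algebra F Ω] [Algebra k Ω]
  {U : Set (ValuationSubring F)} [IsScalarTower k F Ω] [CharZero k] [IsAlgClosed Ω]
  (hU : ∀ O ∈ U, ∀ c : k, algebraMap k F c ∈ O)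

omit [CharZero k] [IsAlgClosed Ω] in
lemma jF (c : k) : constHom hU (algebraMap k (algebraicClosure k Ω) c) =
    algebraMap F (unramified F Ω U) (algebraMap k F c) :=
  Subtype.ext (IsScalarTower.algebraMap_apply k F Ω c)

/-- the field fixed by a section contains no new constants -/
lemma sqk (G : GSection k F Ω U) {κ : unramified F Ω U} (hκ : κ ∈ R G) {c : k}
    (h : κ ^ 2 = constHom hU (algebraMap k _ c)) : ∃ x : k, x ^ 2 = c := by
  have hac : IsAlgClosure k (algebraicClosure k Ω) := inferInstance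
  have hA : IsAlgClosed (algebraicClosure k Ω) := hac.1
  obtain ⟨r, hr⟩ := IsAlgClosed.exists_pow_nat_eq (algebraMap k (algebraicClosure k Ω) c)
    (n := 2) (by norm_num)
  have key : ∀ r' : algebraicClosure k Ω, r' ^ 2 = algebraMap k _ c → κ = constHom hU r' →
      ∃ x : k, x ^ 2 = c := by
    intro r' h1 h2
    obtain ⟨x, hx⟩ := iota_fixed hU G r' (h2 ▸ hκ)
    refine ⟨x, (algebraMap k (algebraicClosure k Ω)).injective ?_⟩
    rw [map_pow, ← hx, h1]
  rw [← hr, map_pow] at h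
  rcases sq_eq_sq_iff_eq_or_eq_neg.1 h with h1 | h1
  · exact key r hr h1
  · refine key (-r) (by rw [neg_sq, hr]) ?_
    rw [map_neg]
    exact h1

lemma sqF (G : GSection k F Ω U) {f : F} {c : k} (h : f ^ 2 = algebraMap k F c) :
    ∃ x : k, x ^ 2 = c := by
  have h1 : IsIntegral k f := IsIntegral.of_pow two_pos (h ▸ isIntegral_algebraMap)
  obtain ⟨x, hx⟩ := alg_mem_base G f h1.isAlgebraic
  refine ⟨x, (algebraMap k F).injective ?_⟩
  rw [map_pow, hx, h]

variable [Algebra.IsAlgebraic F Ω]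

include hU in
/-- **Sections and norm functions.** -/
theorem quad (G : GSection k F Ω U) {a b : k} (ha : a ≠ 0) (hb : b ≠ 0) {P Q s0 : F}
    (hs00 : s0 ≠ 0) (hPQ : P ^ 2 - algebraMap k F b * Q ^ 2 = algebraMap k F a * s0 ^ 2)
    {rb : algebraicClosure k Ω} (hrb : rb ^ 2 = algebraMap k (algebraicClosure k Ω) b)
    {z : unramified F Ω U}
    (hz2' : z ^ 2 = algebraMap F _ P + constHom hU rb * algebraMap F _ Q) :
    ∃ x y : k, a = x ^ 2 - b * y ^ 2 := by
  by_contra hno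
  have hac : IsAlgClosure k (algebraicClosure k Ω) := inferInstance
  have hA : IsAlgClosed (algebraicClosure k Ω) := hac.1
  have : Normal k (algebraicClosure k Ω) := IsAlgClosure.normal k _
  have hGal : IsGalois k (algebraicClosure k Ω) := ⟨⟩
  have hF : CharZero F := charZero_of_injective_algebraMap (algebraMap k F).injective
  have hΩ : CharZero Ω := charZero_of_injective_algebraMap (algebraMap k Ω).injective
  have hnb : ¬ ∃ c : k, c ^ 2 = b := by
    rintro ⟨c, hc⟩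
    have hc0 : c ≠ 0 := by
      rintro rfl
      rw [zero_pow two_ne_zero] at hc
      exact hb hc.symm
    refine hno ⟨(a + 1) / 2, (a - 1) / (2 * c), ?_⟩
    rw [← hc]
    field_simp
    ring
  obtain ⟨β, hβ⟩ : ∃ β : unramified F Ω U, β = constHom hU rb := ⟨_, rfl⟩
  have hz2 : z ^ 2 = algebraMap F _ P + β * algebraMap F _ Q := by
    rw [hβ]
    exact hz2'
  have hβ2 : β ^ 2 = algebraMap F _ (algebraMap k F b) := by
    rw [hβ, ← map_pow, hrb, jF]
  have hz0 : z ≠ 0 := by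
    intro h0
    rw [h0, zero_pow two_ne_zero] at hz2
    have h5 : algebraMap F (unramified F Ω U) (P ^ 2 - algebraMap k F b * Q ^ 2) = 0 := by
      rw [map_sub, map_mul, map_pow, map_pow, ← hβ2]
      linear_combination (β * algebraMap F _ Q - algebraMap F _ P) * hz2
    rw [hPQ] at h5
    exact mul_ne_zero ((_root_.map_ne_zero _).2 ha) (pow_ne_zero 2 hs00)
      ((_root_.map_eq_zero _).1 h5)
  -- the action
  have hιs : ∀ σ c, G.toHom σ (constHom hU c) = constHom hU (σ c) := fun σ c =>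
    Subtype.ext (G.compat σ c (constHom hU c) rfl)
  have hFs : ∀ σ (x : F), G.toHom σ (algebraMap F _ x) = algebraMap F _ x := fun σ x =>
    (G.toHom σ).commutes x
  have hpm : ∀ σ : algebraicClosure k Ω ≃ₐ[k] algebraicClosure k Ω, σ rb = rb ∨ σ rb = -rb := by
    intro σ
    apply sq_eq_sq_iff_eq_or_eq_neg.1
    rw [← map_pow, hrb, σ.commutes]
  obtain ⟨g0, hg0⟩ : ∃ g0 : algebraicClosure k Ω ≃ₐ[k] algebraicClosure k Ω, g0 rb = -rb := by
    by_contra hcon
    push Not at hcon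
    have h5 : constHom hU rb ∈ R G := (mem_R G).2 fun σ => by
      rw [hιs, (hpm σ).resolve_right (hcon σ)]
    obtain ⟨c, hc⟩ := iota_fixed hU G rb h5
    refine hnb ⟨c, (algebraMap k (algebraicClosure k Ω)).injective ?_⟩
    rw [map_pow, ← hc, hrb]
  have hzT : ∀ σ : algebraicClosure k Ω ≃ₐ[k] algebraicClosure k Ω, σ rb = rb →
      (G.toHom σ z) ^ 2 = z ^ 2 := by
    intro σ hσ
    rw [← map_pow, hz2, map_add, map_mul, hFs, hFs, hβ, hιs, hσ]
  obtain ⟨E, hE, hE'⟩ := sec_cont U G z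
  obtain ⟨δ0, hδ0, hδ⟩ := exists_fixed_multiple
    ((toRingAutHom F (unramified F Ω U)).comp G.toHom) (constHom hU)
    (fun σ a => hιs σ a) (MulAction.stabilizer _ rb) z hz0
    (fun σ hσ => by
      rcases sq_eq_sq_iff_eq_or_eq_neg.1 (hzT σ hσ) with h2 | h2
      · refine ⟨1, ?_⟩
        rw [map_one, one_mul]
        exact h2
      · refine ⟨-1, ?_⟩
        rw [map_neg, map_one, neg_one_mul]
        exact h2) E hE'
  obtain ⟨r, hre⟩ : ∃ r, r = constHom hU δ0 * z := ⟨_, rfl⟩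
  have hr : ∀ σ : algebraicClosure k Ω ≃ₐ[k] algebraicClosure k Ω, σ rb = rb →
      G.toHom σ r = r := by
    intro σ hσ
    rw [hre]
    exact hδ σ hσ
  have hg0' : g0⁻¹ rb = -rb := by
    have h5 : g0⁻¹ (g0 rb) = rb := AlgEquiv.symm_apply_apply g0 rb
    rw [hg0, map_neg] at h5
    exact neg_eq_iff_eq_neg.1 h5
  have swap : ∀ r : unramified F Ω U,
      (∀ σ : algebraicClosure k Ω ≃ₐ[k] algebraicClosure k Ω, σ rb = rb → G.toHom σ r = r) →
      ∀ σ : algebraicClosure k Ω ≃ₐ[k] algebraicClosure k Ω,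
        (σ rb = rb ∧ G.toHom σ r = r ∧ G.toHom σ (G.toHom g0 r) = G.toHom g0 r) ∨
        (σ rb = -rb ∧ G.toHom σ r = G.toHom g0 r ∧ G.toHom σ (G.toHom g0 r) = r) := by
    intro r hr σ
    have hmul : ∀ σ τ : algebraicClosure k Ω ≃ₐ[k] algebraicClosure k Ω,
        G.toHom σ (G.toHom τ r) = G.toHom (σ * τ) r := by
      intro σ τ
      rw [map_mul]
      rfl
    rcases hpm σ with hσ | hσ
    · refine Or.inl ⟨hσ, hr σ hσ, ?_⟩
      have h7 : σ * g0 = g0 * (g0⁻¹ * σ * g0) := by group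
      have h8 : (g0⁻¹ * σ * g0) rb = rb := by
        change g0⁻¹ (σ (g0 rb)) = rb
        rw [hg0, map_neg, hσ, map_neg, hg0', neg_neg]
      rw [hmul, h7, ← hmul, hr _ h8]
    · refine Or.inr ⟨hσ, ?_, ?_⟩
      · have h8 : (g0⁻¹ * σ) rb = rb := by
          change g0⁻¹ (σ rb) = rb
          rw [hσ, map_neg, hg0', neg_neg]
        have h7 : G.toHom g0 (G.toHom (g0⁻¹ * σ) r) = G.toHom σ r := by
          rw [hmul, mul_inv_cancel_left]
        rw [← h7, hr _ h8]
      · rw [hmul]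
        apply hr
        change σ (g0 rb) = rb
        rw [hg0, map_neg, hσ, neg_neg]
  have hρR : r * G.toHom g0 r ∈ R G := (mem_R G).2 fun σ => by
    rcases swap r hr σ with ⟨_, a1, a2⟩ | ⟨_, a1, a2⟩
    · rw [map_mul, a1, a2]
    · rw [map_mul, a1, a2, mul_comm]
  have hδT : ∀ σ : algebraicClosure k Ω ≃ₐ[k] algebraicClosure k Ω, σ rb = rb →
      G.toHom σ (constHom hU (δ0 ^ 2)) = constHom hU (δ0 ^ 2) := by
    intro σ hσ
    have h5 : constHom hU (δ0 ^ 2) = r ^ 2 / z ^ 2 := by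
      rw [hre, mul_pow, mul_div_assoc, div_self (pow_ne_zero 2 hz0), mul_one, map_pow]
    rw [h5, map_div₀, map_pow, map_pow, hr σ hσ, hzT σ hσ]
  obtain ⟨s1, hs1⟩ : ∃ s1, s1 = δ0 ^ 2 := ⟨_, rfl⟩
  obtain ⟨s2, hs2⟩ : ∃ s2, s2 = g0 (δ0 ^ 2) := ⟨_, rfl⟩
  rw [← hs1] at hδT
  have hs2' : G.toHom g0 (constHom hU s1) = constHom hU s2 := by
    rw [hιs, hs1, hs2]
  obtain ⟨c1, hc1⟩ : ∃ c1 : k, s1 + s2 = algebraMap k _ c1 := by
    apply iota_fixed hU G
    rw [map_add, ← hs2']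
    refine (mem_R G).2 fun σ => ?_
    rcases swap _ hδT σ with ⟨_, a1, a2⟩ | ⟨_, a1, a2⟩
    · rw [map_add, a1, a2]
    · rw [map_add, a1, a2, add_comm]
  obtain ⟨c2, hc2⟩ : ∃ c2 : k, (s1 - s2) * rb = algebraMap k _ c2 := by
    apply iota_fixed hU G
    rw [map_mul, map_sub, ← hs2']
    refine (mem_R G).2 fun σ => ?_
    rcases swap _ hδT σ with ⟨a0, a1, a2⟩ | ⟨a0, a1, a2⟩
    · rw [map_mul, map_sub, a1, a2, hιs σ rb, a0]
    · rw [map_mul, map_sub, a1, a2, hιs σ rb, a0, map_neg]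
      ring
  have hD : algebraMap k (algebraicClosure k Ω) ((c1 / 2) ^ 2 - b * (c2 / (2 * b)) ^ 2) =
      s1 * s2 := by
    have h5 : (c1 / 2) ^ 2 - b * (c2 / (2 * b)) ^ 2 = (b * c1 ^ 2 - c2 ^ 2) / (4 * b) := by
      field_simp
      ring
    have hb' : algebraMap k (algebraicClosure k Ω) b ≠ 0 := (_root_.map_ne_zero _).2 hb
    have h4A : (4 : algebraicClosure k Ω) ≠ 0 := by
      have h6 : (4 : k) ≠ 0 := by norm_num
      have : algebraMap k (algebraicClosure k Ω) 4 ≠ 0 := (_root_.map_ne_zero _).2 h6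
      rwa [map_ofNat] at this
    rw [h5, map_div₀, map_sub, map_mul, map_pow, map_pow, map_mul, map_ofNat, ← hc1, ← hc2,
      div_eq_iff (mul_ne_zero h4A hb'), ← hrb]
    ring
  have hs1z : s1 ≠ 0 := hs1 ▸ pow_ne_zero 2 hδ0
  have hs2z : s2 ≠ 0 := by
    rw [hs2]
    exact (_root_.map_ne_zero g0).2 (pow_ne_zero 2 hδ0)
  have hD0 : (c1 / 2) ^ 2 - b * (c2 / (2 * b)) ^ 2 ≠ 0 := by
    intro h0
    rw [h0, map_zero] at hD
    exact mul_ne_zero hs1z hs2z hD.symm
  -- the constant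
  have hκ : r * G.toHom g0 r / algebraMap F _ s0 ∈ R G :=
    div_mem hρR ((R G).algebraMap_mem s0)
  have hs0' : algebraMap F (unramified F Ω U) s0 ≠ 0 := (_root_.map_ne_zero _).2 hs00
  have hr2 : r ^ 2 = constHom hU s1 * (algebraMap F _ P + β * algebraMap F _ Q) := by
    rw [hre, mul_pow, hz2, hs1, map_pow]
  have hr2' : (G.toHom g0 r) ^ 2 = constHom hU s2 * (algebraMap F _ P - β * algebraMap F _ Q) := by
    rw [← map_pow, hr2, map_mul, hs2', map_add, map_mul, hFs, hFs, hβ, hιs, hg0, map_neg]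
    ring
  obtain ⟨x, hx⟩ : ∃ x : k, x ^ 2 = ((c1 / 2) ^ 2 - b * (c2 / (2 * b)) ^ 2) * a := by
    refine sqk hU G hκ ?_
    have h5 := congrArg (algebraMap F (unramified F Ω U)) hPQ
    rw [map_sub, map_mul, map_pow, map_pow, ← hβ2, map_mul, map_pow, ← jF (U := U) hU] at h5
    rw [div_pow, mul_pow, hr2, hr2', map_mul, map_mul, hD, map_mul, div_eq_iff (pow_ne_zero 2 hs0')]
    linear_combination constHom hU s1 * constHom hU s2 * h5
  obtain ⟨D, hDe⟩ : ∃ D, D = (c1 / 2) ^ 2 - b * (c2 / (2 * b)) ^ 2 := ⟨_, rfl⟩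
  obtain ⟨y1, hy1⟩ : ∃ y1, y1 = c1 / 2 := ⟨_, rfl⟩
  obtain ⟨y2, hy2⟩ : ∃ y2, y2 = c2 / (2 * b) := ⟨_, rfl⟩
  rw [← hDe] at hD0 hx
  rw [← hy1, ← hy2] at hDe
  refine hno ⟨y1 * x / D, y2 * x / D, ?_⟩
  field_simp
  linear_combination x ^ 2 * hDe - D * hx

end Pool.Agent.Q284.TS
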